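import Pool.Agent.W196.HK.Ms2

/-!
# Mean square of smooth sums (project HL)
-/

set_option autoImplicit false
set_option maxHeartbeats 400000

namespace Pool.Agent.W196.HK

open Pool.Agent.W192.HK
open scoped ENNReal

theorem gcd_split {R : Subring ℂ} (hD : IsDedekindDomain R) {I J : Ideal R} (hI : I ≠ ⊥) :
    ∃ G I' J' : Ideal R, G * I' = I ∧ G * J' = J ∧ IsCoprime I' J' := by
  have := hD
  have d1 : (I ⊔ J) ∣ I := Ideal.dvd_iff_le.2 le_sup_left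
  have d2 : (I ⊔ J) ∣ J := Ideal.dvd_iff_le.2 le_sup_right
  obtain ⟨I', hI'⟩ := d1
  obtain ⟨J', hJ'⟩ := d2
  have hG : I ⊔ J ≠ 0 := by
    intro h
    apply hI
    rw [hI', h, zero_mul, Ideal.zero_eq_bot]
  refine ⟨I ⊔ J, I', J', hI'.symm, hJ'.symm, ?_⟩
  rw [Ideal.isCoprime_iff_sup_eq]
  apply mul_left_cancel₀ hG
  rw [Ideal.mul_sup, ← hI', ← hJ', Ideal.mul_top]

theorem exp_split {γ i j X : ℝ} (hγ : 1 ≤ γ) (hi : 1 ≤ i) (hj : 1 ≤ j) (hX : 0 < X) :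
    Real.exp (-(γ * i / (2 * X))) * Real.exp (-(γ * j / (2 * X))) ≤
      Real.exp (-(γ / (2 * X))) * (Real.exp (-(i / (4 * X))) * Real.exp (-(j / (4 * X)))) := by
  rw [← Real.exp_add, ← Real.exp_add, ← Real.exp_add, Real.exp_le_exp]
  have e : -(γ * i / (2 * X)) + -(γ * j / (2 * X)) =
      (-(γ / (2 * X)) + (-(i / (4 * X)) + -(j / (4 * X)))) -
        (2 * γ * (i + j) - 2 * γ - (i + j)) / (4 * X) := by
    field_simp
    ring
  rw [e]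
  have h1 : 0 ≤ (2 * γ * (i + j) - 2 * γ - (i + j)) / (4 * X) := by
    apply div_nonneg _ (by positivity)
    nlinarith [mul_nonneg (sub_nonneg.2 hγ) (by linarith : 0 ≤ i + j - 1),
      mul_nonneg (sub_nonneg.2 hγ) (by linarith : 0 ≤ i + j)]
  linarith

theorem term_bound {K1 CV η γ i j X wi wj : ℝ} (hK1 : ∀ u : ℝ, 0 < u → Real.exp (-u) ≤ K1 * u ^ (-η))
    (hCV : 0 < CV) (hγ : 1 ≤ γ) (hi : 1 ≤ i) (hj : 1 ≤ j) (hX : 0 < X) (hwj0 : 0 ≤ wj)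
    (hwi : wi ≤ CV * ((γ * i) ^ (-(1 / 2) : ℝ) * Real.exp (-(γ * i / (2 * X)))))
    (hwj : wj ≤ CV * ((γ * j) ^ (-(1 / 2) : ℝ) * Real.exp (-(γ * j / (2 * X))))) :
    wi * wj ≤ (K1 * (2 * X) ^ η * γ ^ (-(1 + η))) * (CV ^ 2 *
      ((i ^ (-(1 / 2) : ℝ) * Real.exp (-(i / (4 * X)))) *
        (j ^ (-(1 / 2) : ℝ) * Real.exp (-(j / (4 * X)))))) := by
  have hγ0 : 0 < γ := by linarith
  have hi0 : 0 < i := by linarith
  have hj0 : 0 < j := by linarith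
  have e1 := exp_split hγ hi hj hX
  have e2 := hK1 (γ / (2 * X)) (by positivity)
  have e3 : (γ / (2 * X)) ^ (-η) = γ ^ (-η) * (2 * X) ^ η := by
    rw [Real.div_rpow hγ0.le (by positivity), Real.rpow_neg (by positivity : (0 : ℝ) ≤ 2 * X)]
    field_simp
  have e4 : γ ^ (-(1 / 2) : ℝ) * γ ^ (-(1 / 2) : ℝ) * γ ^ (-η) = γ ^ (-(1 + η)) := by
    rw [← Real.rpow_add hγ0, ← Real.rpow_add hγ0]; congr 1; ring
  rw [e3] at e2
  calc wi * wj ≤ (CV * ((γ * i) ^ (-(1 / 2) : ℝ) * Real.exp (-(γ * i / (2 * X))))) *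
        (CV * ((γ * j) ^ (-(1 / 2) : ℝ) * Real.exp (-(γ * j / (2 * X))))) :=
        mul_le_mul hwi hwj hwj0 (by positivity)
    _ = CV ^ 2 * (γ ^ (-(1 / 2) : ℝ) * γ ^ (-(1 / 2) : ℝ)) * (i ^ (-(1 / 2) : ℝ) * j ^ (-(1 / 2) : ℝ)) *
        (Real.exp (-(γ * i / (2 * X))) * Real.exp (-(γ * j / (2 * X)))) := by
        rw [Real.mul_rpow hγ0.le hi0.le, Real.mul_rpow hγ0.le hj0.le]
        ring
    _ ≤ CV ^ 2 * (γ ^ (-(1 / 2) : ℝ) * γ ^ (-(1 / 2) : ℝ)) * (i ^ (-(1 / 2) : ℝ) * j ^ (-(1 / 2) : ℝ)) *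
        (Real.exp (-(γ / (2 * X))) * (Real.exp (-(i / (4 * X))) * Real.exp (-(j / (4 * X))))) :=
        mul_le_mul_of_nonneg_left e1 (by positivity)
    _ ≤ CV ^ 2 * (γ ^ (-(1 / 2) : ℝ) * γ ^ (-(1 / 2) : ℝ)) * (i ^ (-(1 / 2) : ℝ) * j ^ (-(1 / 2) : ℝ)) *
        (K1 * (γ ^ (-η) * (2 * X) ^ η) *
          (Real.exp (-(i / (4 * X))) * Real.exp (-(j / (4 * X))))) :=
        mul_le_mul_of_nonneg_left (mul_le_mul_of_nonneg_right e2 (by positivity)) (by positivity)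
    _ = (K1 * (2 * X) ^ η * (γ ^ (-(1 / 2) : ℝ) * γ ^ (-(1 / 2) : ℝ) * γ ^ (-η))) * (CV ^ 2 *
      ((i ^ (-(1 / 2) : ℝ) * Real.exp (-(i / (4 * X)))) *
        (j ^ (-(1 / 2) : ℝ) * Real.exp (-(j / (4 * X)))))) := by ring
    _ = _ := by rw [e4]

theorem w_bound {R : Subring ℂ} {V : ℝ → ℝ} {CV X : ℝ} (hV : VH V CV) (hX : 0 < X)
    {g : Ideal R → ℂ} (hg : Gd R g) {I : Ideal R} (hI : 1 ≤ nm I) :
    ‖g I / (nm I : ℂ) * (V (nm I / X) : ℂ)‖ ≤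
      CV * ((nm I) ^ (-(1 / 2) : ℝ) * Real.exp (-(nm I / (2 * X)))) := by
  have ht : 0 < nm I := by linarith
  have h1 := hg.le I
  have h2 := hV.dec (nm I / X) (by positivity)
  have e1 : Real.sqrt (nm I) / nm I = (nm I) ^ (-(1 / 2) : ℝ) := by
    rw [Real.rpow_neg ht.le, ← Real.sqrt_eq_rpow, Real.sqrt_div_self', one_div]
  rw [norm_mul, norm_div, Complex.norm_real, Complex.norm_real, Real.norm_of_nonneg ht.le,
    Real.norm_eq_abs]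
  have e2 : nm I / X / 2 = nm I / (2 * X) := by rw [div_div, mul_comm]
  rw [e2] at h2
  calc ‖g I‖ / nm I * |V (nm I / X)| ≤
        (Real.sqrt (nm I) / nm I) * (CV * Real.exp (-(nm I / (2 * X)))) := by
        refine mul_le_mul ?_ h2 (abs_nonneg _) (by positivity)
        gcongr
    _ = _ := by rw [e1]; ring

/-- the bound for the sum over the pairs -/
theorem pair_sum {R : Subring ℂ} {V : ℝ → ℝ} {CV X C2 C3 η a b K1 : ℝ} (hD : IsDedekindDomain R)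
    (hbot : nm (⊥ : Ideal R) = 0) (hone : ∀ I : Ideal R, I ≠ ⊥ → 1 ≤ nm I)
    (hmul : ∀ I J : Ideal R, nm (I * J) = nm I * nm J)
    (hsum : Summable fun I : Ideal R => nm I ^ (-(1 + η)))
    (hfin : ∀ y : ℝ, {I : Ideal R | nm I ≤ y}.Finite)
    (hcnt : ∀ y : ℝ, 1 ≤ y → (Set.ncard {I : Ideal R | nm I ≤ y} : ℝ) ≤ C2 * y)
    (hC2 : 0 < C2) (hC3 : 0 < C3) (hη : 0 < η) (hV : VH V CV) (hX : 0 < X) {g : Ideal R → ℂ}
    (hg : Gd R g) {c : Ideal R} {χ : Ideal R → ℂ} (hc : RC c χ) {d : ℕ} (hd : 0 < d)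
    (hN : 0 < nm c)
    (hpair : ∀ x y : ℝ, 1 ≤ x → 1 ≤ y → (prs χ x y).Finite ∧
      (Set.ncard (prs χ x y) : ℝ) ≤ C3 * (nm c / d) * (1 + Real.log y + x * y / nm c))
    (ha : 0 < a) (hb : 0 < b) (hK1 : 0 < K1)
    (ha' : ∀ t x : ℝ, 1 ≤ t → x ≤ 2 * t → 0 < x →
      t ^ (-(1 / 2) : ℝ) * Real.exp (-(t / (4 * X))) ≤ a * x ^ (-(1 / 2 + η)))
    (hb' : ∀ t x : ℝ, 1 ≤ t → x ≤ 2 * t → 0 < x →
      t ^ (-(1 / 2) : ℝ) * Real.exp (-(t / (4 * X))) ≤ b * x ^ (-(1 + η)))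
    (hK1' : ∀ u : ℝ, 0 < u → Real.exp (-u) ≤ K1 * u ^ (-η))
    (K : Ideal R × Ideal R → ℝ) (hKs : Summable K) (hK0 : ∀ p, 0 ≤ K p)
    (hK1k : ∀ p : Ideal R × Ideal R, K p ≠ 0 → χ p.1 ≠ 0 ∧ χ p.1 = χ p.2 ∧
      K p = ‖g p.1 / (nm p.1 : ℂ) * (V (nm p.1 / X) : ℂ)‖ *
        ‖g p.2 / (nm p.2 : ℂ) * (V (nm p.2 / X) : ℂ)‖) :
    ∑' p, K p ≤ (K1 * (2 * X) ^ η * ∑' G : Ideal R, nm G ^ (-(1 + η))) *
      (CV ^ 2 * (Real.sqrt (C2 ^ 2 * C3 * (1 + 1 / η)) * Real.sqrt (nm c / d) *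
        (a ^ 2 + b ^ 2 / Real.sqrt (nm c))) *
          ∑' kl : ℕ × ℕ, ((2 : ℝ) ^ kl.1) ^ (-(η / 2)) * ((2 : ℝ) ^ kl.2) ^ (-(η / 2))) := by
  classical
  have hCV := hV.pos
  have hdR : (0 : ℝ) < d := by exact_mod_cast hd
  have hnm0 : ∀ I : Ideal R, 0 ≤ nm I := fun I => Nat.cast_nonneg _
  set Q : ℝ := Real.sqrt (C2 ^ 2 * C3 * (1 + 1 / η)) * Real.sqrt (nm c / d) *
        (a ^ 2 + b ^ 2 / Real.sqrt (nm c)) with hQ
  have hQ0 : 0 ≤ Q := by positivity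
  set φ : ℝ → ℝ := fun t => t ^ (-(1 / 2) : ℝ) * Real.exp (-(t / (4 * X))) with hφ
  have hφ0 : ∀ t, 0 ≤ t → 0 ≤ φ t := fun t ht => by positivity
  set P : Ideal R × Ideal R → ℝ≥0∞ := fun p =>
    if IsCoprime p.1 p.2 ∧ χ p.1 ≠ 0 ∧ χ p.1 = χ p.2 then
      ENNReal.ofReal (CV ^ 2 * (φ (nm p.1) * φ (nm p.2))) else 0 with hP
  have hne : ∀ I : Ideal R, χ I ≠ 0 → I ≠ ⊥ := fun I h h0 => h ((hc.zero I).2 (Or.inl h0))
  have step1 : ∑' p, ENNReal.ofReal (K p) ≤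
      (∑' G : Ideal R, ENNReal.ofReal (K1 * (2 * X) ^ η * nm G ^ (-(1 + η)))) * ∑' p, P p := by
    refine chain _ _ _ fun p hp => ?_
    have hp' : K p ≠ 0 := fun h => hp (by rw [h, ENNReal.ofReal_zero])
    obtain ⟨c1, c2, c3⟩ := hK1k p hp'
    have n1 := hne _ c1
    have n2 : p.2 ≠ ⊥ := hne _ (c2 ▸ c1)
    obtain ⟨G, I', J', e1, e2, e3⟩ := gcd_split (J := p.2) hD n1
    refine ⟨G, I', J', e1, e2, ?_⟩
    have m1 : χ G * χ I' = χ p.1 := by rw [← hc.mul, e1]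
    have m2 : χ G * χ J' = χ p.2 := by rw [← hc.mul, e2]
    have g0 : χ G ≠ 0 := fun h => c1 (by rw [← m1, h, zero_mul])
    have i0 : χ I' ≠ 0 := fun h => c1 (by rw [← m1, h, mul_zero])
    have j0 : χ J' ≠ 0 := fun h => (c2 ▸ c1 : χ p.2 ≠ 0) (by rw [← m2, h, mul_zero])
    have ij : χ I' = χ J' := mul_left_cancel₀ g0 (by rw [m1, m2, c2])
    have hG1 := hone G (hne _ g0)
    have hI1 := hone I' (hne _ i0)
    have hJ1 := hone J' (hne _ j0)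
    have hPe : P (I', J') = ENNReal.ofReal (CV ^ 2 * (φ (nm I') * φ (nm J'))) :=
      if_pos ⟨e3, i0, ij⟩
    rw [hPe, ← ENNReal.ofReal_mul (by positivity)]
    apply ENNReal.ofReal_le_ofReal
    rw [c3]
    have w1 := w_bound hV hX hg (hone _ n1)
    have w2 := w_bound hV hX hg (hone _ n2)
    have k1 : nm p.1 = nm G * nm I' := by rw [← e1, hmul]
    have k2 : nm p.2 = nm G * nm J' := by rw [← e2, hmul]
    rw [show CV * ((nm p.1) ^ (-(1 / 2) : ℝ) * Real.exp (-(nm p.1 / (2 * X)))) =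
      CV * ((nm G * nm I') ^ (-(1 / 2) : ℝ) * Real.exp (-(nm G * nm I' / (2 * X)))) from by
        rw [k1]] at w1
    rw [show CV * ((nm p.2) ^ (-(1 / 2) : ℝ) * Real.exp (-(nm p.2 / (2 * X)))) =
      CV * ((nm G * nm J') ^ (-(1 / 2) : ℝ) * Real.exp (-(nm G * nm J' / (2 * X)))) from by
        rw [k2]] at w2
    exact term_bound hK1' hCV hG1 hI1 hJ1 hX (norm_nonneg _) w1 w2
  have step2 : ∑' p, P p ≤ ∑' kl : ℕ × ℕ,
      ENNReal.ofReal (CV ^ 2 * Q * (((2 : ℝ) ^ kl.1) ^ (-(η / 2)) * ((2 : ℝ) ^ kl.2) ^ (-(η / 2)))) := by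
    set bb : ℕ → ℝ := fun k => min (a * ((2 : ℝ) ^ k) ^ (-(1 / 2 + η)))
      (b * ((2 : ℝ) ^ k) ^ (-(1 + η))) with hbb
    have hbb0 : ∀ k, 0 ≤ bb k := fun k => le_min (by positivity) (by positivity)
    have h1k : ∀ k : ℕ, (1 : ℝ) ≤ 2 ^ k := fun k => one_le_pow₀ (by norm_num)
    have hlev : ∀ t : ℝ, 1 ≤ t → ∃ k : ℕ, t ≤ 2 ^ k ∧ φ t ≤ bb k := by
      intro t ht
      obtain ⟨n, n1, n2⟩ := exists_nat_pow_near ht (by norm_num : (1 : ℝ) < 2)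
      have e : (2 : ℝ) ^ (n + 1) ≤ 2 * t := by rw [pow_succ]; linarith
      exact ⟨n + 1, n2.le, le_min (ha' t _ ht e (by positivity)) (hb' t _ ht e (by positivity))⟩
    refine (dyad P (fun k l => ENNReal.ofReal (CV ^ 2 * (bb k * bb l)))
      (fun k l => prs χ (2 ^ k) (2 ^ l)) (fun k l => (hpair _ _ (h1k k) (h1k l)).1) ?_).trans ?_
    · intro p hp
      have hcond : IsCoprime p.1 p.2 ∧ χ p.1 ≠ 0 ∧ χ p.1 = χ p.2 := by
        by_contra h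
        exact hp (if_neg h)
      obtain ⟨c1, c2, c3⟩ := hcond
      have t1 := hone _ (hne _ c2)
      have t2 := hone p.2 (hne _ (c3 ▸ c2))
      obtain ⟨k, k1, k2⟩ := hlev _ t1
      obtain ⟨l, l1, l2⟩ := hlev _ t2
      refine ⟨k, l, ⟨c1, k1, l1, c2, c3⟩, ?_⟩
      have hPe : P p = ENNReal.ofReal (CV ^ 2 * (φ (nm p.1) * φ (nm p.2))) :=
        if_pos ⟨c1, c2, c3⟩
      rw [hPe]
      apply ENNReal.ofReal_le_ofReal
      exact mul_le_mul_of_nonneg_left (mul_le_mul k2 l2 (hφ0 _ (by linarith)) (hbb0 k))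
        (by positivity)
    · refine ENNReal.tsum_le_tsum fun kl => ?_
      obtain ⟨k, l⟩ := kl
      show ((prs χ (2 ^ k) (2 ^ l)).ncard : ℝ≥0∞) * ENNReal.ofReal (CV ^ 2 * (bb k * bb l)) ≤ _
      rw [← ENNReal.ofReal_natCast, ← ENNReal.ofReal_mul (Nat.cast_nonneg _)]
      apply ENNReal.ofReal_le_ofReal
      have hA2 : ((prs χ (2 ^ k) (2 ^ l)).ncard : ℝ) ≤ C2 ^ 2 * ((2 : ℝ) ^ k * 2 ^ l) := by
        have s1 : prs χ (2 ^ k) (2 ^ l) ⊆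
            {I : Ideal R | nm I ≤ 2 ^ k} ×ˢ {I : Ideal R | nm I ≤ 2 ^ l} :=
          fun p hp => ⟨hp.2.1, hp.2.2.1⟩
        have s2 := Set.ncard_le_ncard s1 ((hfin _).prod (hfin _))
        rw [Set.ncard_prod] at s2
        have s3 : ((prs χ (2 ^ k) (2 ^ l)).ncard : ℝ) ≤
            (Set.ncard {I : Ideal R | nm I ≤ 2 ^ k} : ℝ) *
              (Set.ncard {I : Ideal R | nm I ≤ 2 ^ l} : ℝ) := by exact_mod_cast s2
        calc _ ≤ _ := s3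
          _ ≤ (C2 * 2 ^ k) * (C2 * 2 ^ l) :=
            mul_le_mul (hcnt _ (h1k k)) (hcnt _ (h1k l)) (Nat.cast_nonneg _) (by positivity)
          _ = _ := by ring
      have hbx := box (Nat.cast_nonneg _) hC2 hC3 (div_pos hN hdR) hN (h1k k) (h1k l) hη hA2
        (hpair _ _ (h1k k) (h1k l)).2 ha hb (hbb0 k) (hbb0 l) (min_le_left _ _) (min_le_right _ _)
        (min_le_left _ _) (min_le_right _ _)
      calc _ = CV ^ 2 * (((prs χ (2 ^ k) (2 ^ l)).ncard : ℝ) * (bb k * bb l)) := by ring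
        _ ≤ CV ^ 2 * (Q * (((2 : ℝ) ^ k) ^ (-(η / 2)) * ((2 : ℝ) ^ l) ^ (-(η / 2)))) :=
          mul_le_mul_of_nonneg_left hbx (by positivity)
        _ = _ := by ring
  have hr : Summable fun k : ℕ => ((2 : ℝ) ^ k) ^ (-(η / 2)) := by
    have e : ∀ k : ℕ, ((2 : ℝ) ^ k) ^ (-(η / 2)) = ((2 : ℝ) ^ (-(η / 2))) ^ k := fun k => by
      rw [← Real.rpow_natCast, ← Real.rpow_natCast, ← Real.rpow_mul (by norm_num),
        ← Real.rpow_mul (by norm_num), mul_comm]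
    simp only [e]
    exact summable_geometric_of_lt_one (by positivity)
      (Real.rpow_lt_one_of_one_lt_of_neg (by norm_num) (by linarith))
  have hr2 : Summable fun kl : ℕ × ℕ =>
      ((2 : ℝ) ^ kl.1) ^ (-(η / 2)) * ((2 : ℝ) ^ kl.2) ^ (-(η / 2)) :=
    hr.mul_of_nonneg hr (fun _ => by positivity) (fun _ => by positivity)
  have hrp0 : ∀ G : Ideal R, 0 ≤ nm G ^ (-(1 + η)) := fun G => Real.rpow_nonneg (hnm0 G) _
  rw [← ENNReal.ofReal_tsum_of_nonneg hK0 hKs, ← ENNReal.ofReal_tsum_of_nonneg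
    (fun G => mul_nonneg (by positivity) (hrp0 G)) (hsum.mul_left _), tsum_mul_left] at step1
  rw [← ENNReal.ofReal_tsum_of_nonneg (fun kl => by positivity) (hr2.mul_left _),
    tsum_mul_left] at step2
  have h3 := step1.trans (mul_le_mul_right step2 _)
  rw [← ENNReal.ofReal_mul (mul_nonneg (by positivity) (tsum_nonneg hrp0))] at h3
  exact (ENNReal.ofReal_le_ofReal_iff (mul_nonneg (mul_nonneg (by positivity) (tsum_nonneg hrp0))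
    (mul_nonneg (by positivity) (tsum_nonneg fun _ => by positivity)))).1 h3

end Pool.Agent.W196.HK
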