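import Pool.Agent.W192.HK.PartsL

/-!
# Orthogonality and double sums (project HL)
-/

set_option autoImplicit false
set_option maxHeartbeats 400000

namespace Pool.Agent.W196.HK

open scoped ENNReal

theorem geom {a b : ℂ} (d : ℕ) (ha : a ^ d = 1) (hb : b ^ d = 1) (hb1 : ‖b‖ = 1) :
    ∑ j ∈ Finset.range d, (a * (starRingEnd ℂ) b) ^ j = if a = b then (d : ℂ) else 0 := by
  have hbb : b * (starRingEnd ℂ) b = 1 := by
    rw [Complex.mul_conj', hb1]; norm_num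
  split_ifs with h
  · subst h
    rw [hbb]
    simp
  · have hz : a * (starRingEnd ℂ) b ≠ 1 := by
      intro h1
      apply h
      calc a = a * (b * (starRingEnd ℂ) b) := by rw [hbb, mul_one]
        _ = (a * (starRingEnd ℂ) b) * b := by ring
        _ = b := by rw [h1, one_mul]
    have h2 := geom_sum_mul (a * (starRingEnd ℂ) b) d
    have h3 : (a * (starRingEnd ℂ) b) ^ d = 1 := by
      rw [mul_pow, ha, ← map_pow, hb, map_one, one_mul]
    rw [h3, sub_self] at h2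
    rcases mul_eq_zero.1 h2 with h4 | h4
    · exact h4
    · exact absurd (sub_eq_zero.1 h4) hz

theorem norm_F {ι : Type} (χ w : ι → ℂ) (F : ℕ → ι → ℂ) (h1 : ∀ i, χ i ≠ 0 → ‖χ i‖ = 1)
    (hF0 : ∀ a i, χ i = 0 → F a i = 0) (hF1 : ∀ a i, χ i ≠ 0 → F a i = χ i ^ a * w i)
    (a : ℕ) (i : ι) : ‖F a i‖ ≤ ‖w i‖ := by
  by_cases h : χ i = 0
  · rw [hF0 a i h, norm_zero]
    exact norm_nonneg _
  · rw [hF1 a i h, norm_mul, norm_pow, h1 i h, one_pow, one_mul]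

theorem sq_F {ι : Type} (f : ι → ℂ) (hf : Summable fun i => ‖f i‖) :
    ((‖∑' i, f i‖ ^ 2 : ℝ) : ℂ) = ∑' p : ι × ι, f p.1 * (starRingEnd ℂ) (f p.2) := by
  have hfc : Summable fun i => ‖(starRingEnd ℂ) (f i)‖ := by
    simpa only [RCLike.norm_conj] using hf
  rw [← tsum_mul_tsum_of_summable_norm hf hfc, ← Complex.conj_tsum, Complex.mul_conj']
  push_cast
  rfl

theorem pt_F {ι : Type} (χ w : ι → ℂ) (F : ℕ → ι → ℂ) (K : ι × ι → ℝ) (d : ℕ)
    (h1 : ∀ i, χ i ≠ 0 → ‖χ i‖ = 1) (h2 : ∀ i, χ i ≠ 0 → χ i ^ d = 1)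
    (hF0 : ∀ a i, χ i = 0 → F a i = 0) (hF1 : ∀ a i, χ i ≠ 0 → F a i = χ i ^ a * w i)
    (hK0 : ∀ p, 0 ≤ K p)
    (hK1 : ∀ p : ι × ι, χ p.1 ≠ 0 → χ p.1 = χ p.2 → ‖w p.1‖ * ‖w p.2‖ ≤ K p) (p : ι × ι) :
    ‖∑ a ∈ Finset.range d, F a p.1 * (starRingEnd ℂ) (F a p.2)‖ ≤ d * K p := by
  have hd : 0 ≤ (d : ℝ) * K p := mul_nonneg (Nat.cast_nonneg _) (hK0 p)
  by_cases hp1 : χ p.1 = 0
  · rw [Finset.sum_eq_zero fun a _ => by rw [hF0 a p.1 hp1, zero_mul], norm_zero]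
    exact hd
  · by_cases hp2 : χ p.2 = 0
    · rw [Finset.sum_eq_zero fun a _ => by rw [hF0 a p.2 hp2, map_zero, mul_zero], norm_zero]
      exact hd
    · have e : ∀ a, F a p.1 * (starRingEnd ℂ) (F a p.2) =
          (χ p.1 * (starRingEnd ℂ) (χ p.2)) ^ a * (w p.1 * (starRingEnd ℂ) (w p.2)) := by
        intro a
        rw [hF1 a p.1 hp1, hF1 a p.2 hp2, map_mul, map_pow, mul_pow]
        ring
      rw [Finset.sum_congr rfl fun a _ => e a, ← Finset.sum_mul,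
        geom d (h2 _ hp1) (h2 _ hp2) (h1 _ hp2)]
      split_ifs with h
      · rw [norm_mul, norm_mul, RCLike.norm_conj, Complex.norm_natCast]
        exact mul_le_mul_of_nonneg_left (hK1 p hp1 h) (Nat.cast_nonneg _)
      · rw [zero_mul, norm_zero]
        exact hd

theorem main_F {ι : Type} (F : ℕ → ι → ℂ) (hf : ∀ a, Summable fun i => ‖F a i‖) (s : Finset ℕ) :
    ((∑ a ∈ s, ‖∑' i, F a i‖ ^ 2 : ℝ) : ℂ) =
      ∑' p : ι × ι, ∑ a ∈ s, F a p.1 * (starRingEnd ℂ) (F a p.2) := by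
  have hsum : ∀ a ∈ s, Summable fun p : ι × ι => F a p.1 * (starRingEnd ℂ) (F a p.2) := by
    intro a _
    have h2 : Summable fun i => ‖(starRingEnd ℂ) (F a i)‖ := by
      simpa only [RCLike.norm_conj] using hf a
    exact summable_mul_of_summable_norm (f := fun i => F a i)
      (g := fun i => (starRingEnd ℂ) (F a i)) (hf a) h2
  have h1 := Summable.tsum_finsetSum hsum
  refine Eq.trans ?_ h1.symm
  rw [Complex.ofReal_sum]
  exact Finset.sum_congr rfl fun a _ => sq_F _ (hf a)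

theorem last_F {ι : Type} (f : ι → ℂ) (K : ι → ℝ) (S : ℝ) (c : ℝ) (hKs : Summable K)
    (h : (S : ℂ) = ∑' p, f p) (hp : ∀ p, ‖f p‖ ≤ c * K p) : S ≤ c * ∑' p, K p := by
  have hs2 : Summable fun p => ‖f p‖ :=
    Summable.of_nonneg_of_le (fun _ => norm_nonneg _) hp (hKs.mul_left c)
  calc S ≤ ‖(S : ℂ)‖ := by rw [Complex.norm_real]; exact le_abs_self S
    _ ≤ ∑' p, ‖f p‖ := by rw [h]; exact norm_tsum_le_tsum_norm hs2
    _ ≤ ∑' p, c * K p := hs2.tsum_le_tsum hp (hKs.mul_left c)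
    _ = c * ∑' p, K p := tsum_mul_left

theorem orth {ι : Type} (χ w : ι → ℂ) (hw : Summable fun i => ‖w i‖) (F : ℕ → ι → ℂ)
    (K : ι × ι → ℝ) (hKs : Summable K) (d : ℕ)
    (h1 : ∀ i, χ i ≠ 0 → ‖χ i‖ = 1) (h2 : ∀ i, χ i ≠ 0 → χ i ^ d = 1)
    (hF0 : ∀ a i, χ i = 0 → F a i = 0) (hF1 : ∀ a i, χ i ≠ 0 → F a i = χ i ^ a * w i)
    (hK0 : ∀ p, 0 ≤ K p)
    (hK1 : ∀ p : ι × ι, χ p.1 ≠ 0 → χ p.1 = χ p.2 → ‖w p.1‖ * ‖w p.2‖ ≤ K p) :
    ∑ a ∈ Finset.range d, ‖∑' i, F a i‖ ^ 2 ≤ (d : ℝ) * ∑' p, K p :=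
  last_F _ K _ (d : ℝ) hKs (main_F F (fun a =>
    Summable.of_nonneg_of_le (fun _ => norm_nonneg _) (norm_F χ w F h1 hF0 hF1 a) hw) _)
    (pt_F χ w F K d h1 h2 hF0 hF1 hK0 hK1)

theorem chain {M : Type} [Mul M] (F : M × M → ℝ≥0∞) (AG : M → ℝ≥0∞) (P : M × M → ℝ≥0∞)
    (hF : ∀ p, F p ≠ 0 → ∃ G I' J', G * I' = p.1 ∧ G * J' = p.2 ∧ F p ≤ AG G * P (I', J')) :
    ∑' p, F p ≤ (∑' G, AG G) * ∑' p, P p := by
  classical
  calc ∑' p, F p ≤ ∑' p, ∑' q : M × (M × M),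
        (if (q.1 * q.2.1, q.1 * q.2.2) = p then AG q.1 * P q.2 else 0) := by
        refine ENNReal.tsum_le_tsum fun p => ?_
        by_cases h : F p = 0
        · rw [h]; exact bot_le
        · obtain ⟨G, I', J', e1, e2, e3⟩ := hF p h
          refine le_trans ?_ (ENNReal.le_tsum (G, (I', J')))
          rw [if_pos (Prod.ext e1 e2)]
          exact e3
    _ = ∑' q : M × (M × M), ∑' p,
        (if (q.1 * q.2.1, q.1 * q.2.2) = p then AG q.1 * P q.2 else 0) := ENNReal.tsum_comm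
    _ = ∑' q : M × (M × M), AG q.1 * P q.2 := by
        refine tsum_congr fun q => ?_
        rw [tsum_eq_single (q.1 * q.2.1, q.1 * q.2.2)]
        · rw [if_pos rfl]
        · intro p hp
          rw [if_neg (fun h => hp h.symm)]
    _ = _ := by
        rw [ENNReal.tsum_prod (f := fun a b => AG a * P b)]
        simp only [ENNReal.tsum_mul_left]
        rw [ENNReal.tsum_mul_right]

theorem dyad {ι : Type} (φ : ι → ℝ≥0∞) (b : ℕ → ℕ → ℝ≥0∞) (s : ℕ → ℕ → Set ι)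
    (hs : ∀ k l, (s k l).Finite) (hφ : ∀ p, φ p ≠ 0 → ∃ k l, p ∈ s k l ∧ φ p ≤ b k l) :
    ∑' p, φ p ≤ ∑' kl : ℕ × ℕ, ((s kl.1 kl.2).ncard : ℝ≥0∞) * b kl.1 kl.2 := by
  classical
  calc ∑' p, φ p ≤ ∑' p, ∑' kl : ℕ × ℕ, (if p ∈ s kl.1 kl.2 then b kl.1 kl.2 else 0) := by
        refine ENNReal.tsum_le_tsum fun p => ?_
        by_cases h : φ p = 0
        · rw [h]; exact bot_le
        · obtain ⟨k, l, e1, e2⟩ := hφ p h
          refine le_trans ?_ (ENNReal.le_tsum (k, l))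
          rw [if_pos e1]
          exact e2
    _ = ∑' kl : ℕ × ℕ, ∑' p, (if p ∈ s kl.1 kl.2 then b kl.1 kl.2 else 0) := ENNReal.tsum_comm
    _ = _ := by
        refine tsum_congr fun kl => ?_
        rw [tsum_eq_sum (s := (hs kl.1 kl.2).toFinset)]
        · rw [Finset.sum_congr rfl (g := fun _ => b kl.1 kl.2) (fun p hp => if_pos
            ((Set.Finite.mem_toFinset _).1 hp)), Finset.sum_const, nsmul_eq_mul,
            Set.ncard_eq_toFinset_card _ (hs kl.1 kl.2)]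
        · intro p hp
          rw [if_neg (fun h => hp ((Set.Finite.mem_toFinset _).2 h))]

theorem expb (σ : ℝ) (hσ : 0 < σ) :
    ∃ C : ℝ, 0 < C ∧ ∀ u : ℝ, 0 < u → Real.exp (-u) ≤ C * u ^ (-σ) := by
  obtain ⟨n, hn⟩ := exists_nat_ge σ
  refine ⟨1 + n.factorial, by positivity, fun u hu => ?_⟩
  have h1 : u ^ σ ≤ (1 + n.factorial) * Real.exp u := by
    have h2 : u ^ σ ≤ 1 + u ^ n := by
      rcases le_total u 1 with h | h
      · have h3 := Real.rpow_le_one hu.le h hσ.le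
        have h4 : 0 ≤ u ^ n := by positivity
        linarith
      · have h3 := Real.rpow_le_rpow_of_exponent_le h hn
        rw [Real.rpow_natCast] at h3
        linarith
    have h3 := Real.pow_div_factorial_le_exp u hu.le n
    have h4 : u ^ n ≤ n.factorial * Real.exp u := by
      rw [div_le_iff₀ (by positivity)] at h3
      linarith
    have h5 : 1 ≤ Real.exp u := Real.one_le_exp hu.le
    nlinarith
  rw [Real.exp_neg, Real.rpow_neg hu.le, ← div_eq_mul_inv, inv_eq_one_div,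
    div_le_div_iff₀ (Real.exp_pos _) (Real.rpow_pos_of_pos hu _)]
  linarith

theorem phib (σ : ℝ) (hσ : 0 < σ) : ∃ a : ℝ, 0 < a ∧ ∀ X t x : ℝ, 0 < X → 1 ≤ t → x ≤ 2 * t →
    0 < x → t ^ (-(1 / 2) : ℝ) * Real.exp (-(t / (4 * X))) ≤ a * X ^ σ * x ^ (-(1 / 2 + σ)) := by
  obtain ⟨C, hC, h⟩ := expb σ hσ
  refine ⟨C * 4 ^ σ * 2 ^ (1 / 2 + σ), by positivity, fun X t x hX ht hx hx0 => ?_⟩
  have ht0 : 0 < t := by linarith
  have h1 := h (t / (4 * X)) (by positivity)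
  have h2 : (t / (4 * X)) ^ (-σ) = t ^ (-σ) * (4 ^ σ * X ^ σ) := by
    rw [Real.div_rpow ht0.le (by positivity), Real.mul_rpow (by norm_num) hX.le,
      Real.rpow_neg (by norm_num : (0 : ℝ) ≤ 4), Real.rpow_neg hX.le]
    field_simp
  have h3 : t ^ (-(1 / 2) : ℝ) * t ^ (-σ) = t ^ (-(1 / 2 + σ)) := by
    rw [← Real.rpow_add ht0]
    congr 1
    ring
  have h4 : t ^ (-(1 / 2 + σ)) ≤ (x / 2) ^ (-(1 / 2 + σ)) :=
    Real.rpow_le_rpow_of_nonpos (by positivity) (by linarith) (by linarith)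
  have h5 : (x / 2) ^ (-(1 / 2 + σ)) = 2 ^ (1 / 2 + σ) * x ^ (-(1 / 2 + σ)) := by
    rw [Real.div_rpow hx0.le (by norm_num), Real.rpow_neg (by norm_num : (0 : ℝ) ≤ 2)]
    field_simp
  calc t ^ (-(1 / 2) : ℝ) * Real.exp (-(t / (4 * X)))
      ≤ t ^ (-(1 / 2) : ℝ) * (C * (t ^ (-σ) * (4 ^ σ * X ^ σ))) := by
        rw [← h2]
        exact mul_le_mul_of_nonneg_left h1 (by positivity)
    _ = C * 4 ^ σ * X ^ σ * (t ^ (-(1 / 2) : ℝ) * t ^ (-σ)) := by ring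
    _ ≤ C * 4 ^ σ * X ^ σ * (2 ^ (1 / 2 + σ) * x ^ (-(1 / 2 + σ))) := by
        rw [h3, ← h5]
        exact mul_le_mul_of_nonneg_left h4 (by positivity)
    _ = _ := by ring

end Pool.Agent.W196.HK
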