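import Pool.Agent.W196.HK.Ms1

/-!
# The count of pairs in boxes (project HL)
-/

set_option autoImplicit false
set_option maxHeartbeats 400000

namespace Pool.Agent.W196.HK

open Pool.Agent.W192.HK

/-- the geometric mean of the two bounds -/
theorem mean_bound {A C2 C3 D N x y η : ℝ} (hA : 0 ≤ A) (hC2 : 0 < C2) (hC3 : 0 < C3) (hD : 0 < D)
    (hN : 0 < N) (hx : 1 ≤ x) (hy : 1 ≤ y) (hη : 0 < η) (h1 : A ≤ C2 ^ 2 * (x * y))
    (h2 : A ≤ C3 * D * (1 + Real.log y + x * y / N)) :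
    A ≤ Real.sqrt (C2 ^ 2 * C3 * (1 + 1 / η)) * Real.sqrt D *
      (Real.sqrt (x * y) * y ^ (η / 2) + x * y / Real.sqrt N) := by
  have hxy : 0 < x * y := by positivity
  have hy0 : 0 < y := by linarith
  have hlog : 1 + Real.log y ≤ (1 + 1 / η) * y ^ η := by
    have e1 := Real.log_le_rpow_div hy0.le hη
    have e2 : 1 ≤ y ^ η := Real.one_le_rpow hy hη.le
    have e3 : (1 + 1 / η) * y ^ η = y ^ η + y ^ η / η := by ring
    rw [e3]
    linarith
  have hη1 : 1 ≤ 1 + 1 / η := by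
    have : 0 < 1 / η := by positivity
    linarith
  set M := Real.sqrt (x * y) * y ^ (η / 2) + x * y / Real.sqrt N with hM
  have hM0 : 0 ≤ M := by positivity
  have hMsq : x * y * y ^ η + (x * y) ^ 2 / N ≤ M ^ 2 := by
    have e1 : (Real.sqrt (x * y) * y ^ (η / 2)) ^ 2 = x * y * y ^ η := by
      rw [mul_pow, Real.sq_sqrt hxy.le, ← Real.rpow_natCast (y ^ (η / 2)), ← Real.rpow_mul hy0.le]
      congr 2
      push_cast
      ring
    have e2 : (x * y / Real.sqrt N) ^ 2 = (x * y) ^ 2 / N := by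
      rw [div_pow, Real.sq_sqrt hN.le]
    have e3 : 0 ≤ Real.sqrt (x * y) * y ^ (η / 2) := by positivity
    have e4 : 0 ≤ x * y / Real.sqrt N := by positivity
    rw [← e1, ← e2, hM]
    nlinarith [mul_nonneg e3 e4]
  have hsq : A ^ 2 ≤ (Real.sqrt (C2 ^ 2 * C3 * (1 + 1 / η)) * Real.sqrt D * M) ^ 2 := by
    rw [mul_pow, mul_pow, Real.sq_sqrt (by positivity), Real.sq_sqrt hD.le]
    have e1 : 1 + Real.log y + x * y / N ≤ (1 + 1 / η) * (y ^ η + x * y / N) := by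
      have : x * y / N ≤ (1 + 1 / η) * (x * y / N) :=
        le_mul_of_one_le_left (by positivity) hη1
      linarith
    calc A ^ 2 = A * A := sq A
      _ ≤ (C2 ^ 2 * (x * y)) * (C3 * D * ((1 + 1 / η) * (y ^ η + x * y / N))) := by
        refine mul_le_mul h1 (h2.trans ?_) hA (by positivity)
        exact mul_le_mul_of_nonneg_left e1 (by positivity)
      _ = C2 ^ 2 * C3 * (1 + 1 / η) * D * (x * y * y ^ η + (x * y) ^ 2 / N) := by ring
      _ ≤ C2 ^ 2 * C3 * (1 + 1 / η) * D * M ^ 2 :=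
        mul_le_mul_of_nonneg_left hMsq (by positivity)
  exact abs_le_of_sq_le_sq' hsq (by positivity) |>.2

/-- one box -/
theorem box {A C2 C3 D N x y η α β b1 b2 : ℝ} (hA : 0 ≤ A) (hC2 : 0 < C2) (hC3 : 0 < C3)
    (hD : 0 < D) (hN : 0 < N) (hx : 1 ≤ x) (hy : 1 ≤ y) (hη : 0 < η)
    (h1 : A ≤ C2 ^ 2 * (x * y)) (h2 : A ≤ C3 * D * (1 + Real.log y + x * y / N))
    (hα : 0 < α) (hβ : 0 < β)
    (hb1 : 0 ≤ b1) (hb2 : 0 ≤ b2) (k1 : b1 ≤ α * x ^ (-(1 / 2 + η))) (k2 : b1 ≤ β * x ^ (-(1 + η)))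
    (l1 : b2 ≤ α * y ^ (-(1 / 2 + η))) (l2 : b2 ≤ β * y ^ (-(1 + η))) :
    A * (b1 * b2) ≤ Real.sqrt (C2 ^ 2 * C3 * (1 + 1 / η)) * Real.sqrt D *
      (α ^ 2 + β ^ 2 / Real.sqrt N) * (x ^ (-(η / 2)) * y ^ (-(η / 2))) := by
  have h := mean_bound hA hC2 hC3 hD hN hx hy hη h1 h2
  have hx0 : 0 < x := by linarith
  have hy0 : 0 < y := by linarith
  have hxm : x ^ (-η) ≤ x ^ (-(η / 2)) := Real.rpow_le_rpow_of_exponent_le hx (by linarith)
  have hym : y ^ (-η) ≤ y ^ (-(η / 2)) := Real.rpow_le_rpow_of_exponent_le hy (by linarith)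
  have t1 : b1 * b2 * (Real.sqrt (x * y) * y ^ (η / 2)) ≤
      α ^ 2 * (x ^ (-(η / 2)) * y ^ (-(η / 2))) := by
    have e : (α * x ^ (-(1 / 2 + η))) * (α * y ^ (-(1 / 2 + η))) *
        (Real.sqrt (x * y) * y ^ (η / 2)) = α ^ 2 * (x ^ (-η) * y ^ (-(η / 2))) := by
      rw [Real.sqrt_eq_rpow, Real.mul_rpow hx0.le hy0.le]
      have ex : x ^ (-(1 / 2 + η)) * x ^ (1 / 2 : ℝ) = x ^ (-η) := by
        rw [← Real.rpow_add hx0]; congr 1; ring
      have ey : y ^ (-(1 / 2 + η)) * y ^ (1 / 2 : ℝ) * y ^ (η / 2) = y ^ (-(η / 2)) := by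
        rw [← Real.rpow_add hy0, ← Real.rpow_add hy0]; congr 1; ring
      rw [← ex, ← ey]
      ring
    calc b1 * b2 * (Real.sqrt (x * y) * y ^ (η / 2))
        ≤ (α * x ^ (-(1 / 2 + η))) * (α * y ^ (-(1 / 2 + η))) *
          (Real.sqrt (x * y) * y ^ (η / 2)) :=
          mul_le_mul_of_nonneg_right (mul_le_mul k1 l1 hb2 (by positivity)) (by positivity)
      _ = α ^ 2 * (x ^ (-η) * y ^ (-(η / 2))) := e
      _ ≤ α ^ 2 * (x ^ (-(η / 2)) * y ^ (-(η / 2))) := by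
        gcongr
  have t2 : b1 * b2 * (x * y / Real.sqrt N) ≤
      β ^ 2 / Real.sqrt N * (x ^ (-(η / 2)) * y ^ (-(η / 2))) := by
    have e : (β * x ^ (-(1 + η))) * (β * y ^ (-(1 + η))) * (x * y / Real.sqrt N) =
        β ^ 2 / Real.sqrt N * (x ^ (-η) * y ^ (-η)) := by
      have ex : x ^ (-(1 + η)) * x = x ^ (-η) := by
        rw [← Real.rpow_add_one hx0.ne']; congr 1; ring
      have ey : y ^ (-(1 + η)) * y = y ^ (-η) := by
        rw [← Real.rpow_add_one hy0.ne']; congr 1; ring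
      rw [← ex, ← ey]
      ring
    calc b1 * b2 * (x * y / Real.sqrt N)
        ≤ (β * x ^ (-(1 + η))) * (β * y ^ (-(1 + η))) * (x * y / Real.sqrt N) :=
          mul_le_mul_of_nonneg_right (mul_le_mul k2 l2 hb2 (by positivity)) (by positivity)
      _ = β ^ 2 / Real.sqrt N * (x ^ (-η) * y ^ (-η)) := e
      _ ≤ β ^ 2 / Real.sqrt N * (x ^ (-(η / 2)) * y ^ (-(η / 2))) := by
        gcongr
  set S := Real.sqrt (C2 ^ 2 * C3 * (1 + 1 / η)) * Real.sqrt D with hS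
  have hS0 : 0 ≤ S := by positivity
  calc A * (b1 * b2) ≤ (S * (Real.sqrt (x * y) * y ^ (η / 2) + x * y / Real.sqrt N)) * (b1 * b2) :=
        mul_le_mul_of_nonneg_right h (by positivity)
    _ = S * (b1 * b2 * (Real.sqrt (x * y) * y ^ (η / 2)) + b1 * b2 * (x * y / Real.sqrt N)) := by
        ring
    _ ≤ S * (α ^ 2 * (x ^ (-(η / 2)) * y ^ (-(η / 2))) +
        β ^ 2 / Real.sqrt N * (x ^ (-(η / 2)) * y ^ (-(η / 2)))) :=
        mul_le_mul_of_nonneg_left (add_le_add t1 t2) hS0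
    _ = _ := by ring

end Pool.Agent.W196.HK
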