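import Pool.Agent.W196.HK.Ms

/-!
# Mean square of smooth sums, final step (project HL)
-/

set_option autoImplicit false
set_option maxHeartbeats 400000

namespace Pool.Agent.W196.HK

open Pool.Agent.W192.HK

theorem fin_alg {K1 Z1 CV Kc Z2 a0 b0 c0 N η ε s : ℝ} (hc0 : 0 < c0) (hN : 1 ≤ N)
    (hη : η = 2 * ε / 3) :
    (K1 * (2 * (c0 * Real.sqrt N)) ^ η * Z1) * (CV ^ 2 * (Kc * s *
      ((a0 * (c0 * Real.sqrt N) ^ η) ^ 2 + (b0 * (c0 * Real.sqrt N) ^ (1 / 2 + η)) ^ 2 /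
        Real.sqrt N)) * Z2) =
      (K1 * 2 ^ η * Z1 * (CV ^ 2 * Kc * Z2) * (a0 ^ 2 + b0 ^ 2 * c0) * c0 ^ (3 * η)) * N ^ ε * s := by
  have hN0 : 0 < N := by linarith
  have hs : 0 < Real.sqrt N := Real.sqrt_pos.2 hN0
  set X := c0 * Real.sqrt N with hXd
  have hX : 0 < X := by positivity
  have e1 : (2 * X) ^ η = 2 ^ η * X ^ η := Real.mul_rpow (by norm_num) hX.le
  have e2 : (X ^ (1 / 2 + η)) ^ 2 / Real.sqrt N = c0 * (X ^ η) ^ 2 := by
    have e3 : (X ^ (1 / 2 + η)) ^ 2 = X * (X ^ η) ^ 2 := by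
      rw [Real.rpow_add hX, mul_pow, ← Real.sqrt_eq_rpow, Real.sq_sqrt hX.le]
    rw [e3, hXd]
    field_simp
  have e4 : X ^ η * (X ^ η) ^ 2 = c0 ^ (3 * η) * N ^ ε := by
    have e5 : X ^ η * (X ^ η) ^ 2 = X ^ (3 * η) := by
      rw [← Real.rpow_natCast (X ^ η), ← Real.rpow_mul hX.le, ← Real.rpow_add hX]
      congr 1
      push_cast
      ring
    rw [e5, hXd, Real.mul_rpow hc0.le hs.le, Real.sqrt_eq_rpow, ← Real.rpow_mul hN0.le]
    congr 2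
    rw [hη]
    ring
  rw [e1, mul_pow, mul_pow, mul_div_assoc, e2]
  calc _ = (K1 * 2 ^ η * Z1 * (CV ^ 2 * Kc * Z2) * (a0 ^ 2 + b0 ^ 2 * c0)) *
      (X ^ η * (X ^ η) ^ 2) * s := by ring
    _ = _ := by rw [e4]; ring

theorem l_ms (h1 : H_BASIC) (h2 : H_CNT) (h3 : L_PAIR) (h4 : H_FPR) (_h5 : H_DIVR) : L_MS := by
  classical
  intro V CV hV R ω hR g hg c0 hc0 ε hε
  obtain ⟨-, hbot, hone, hmul, -⟩ := h1 R ω hR
  obtain ⟨hfin, hsum, C2, hC2, hcnt, -⟩ := h2 R ω hR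
  obtain ⟨C3, hC3, hpair⟩ := h3 R ω hR
  obtain ⟨η, hη⟩ : ∃ η : ℝ, η = 2 * ε / 3 := ⟨_, rfl⟩
  have hη0 : 0 < η := by rw [hη]; positivity
  obtain ⟨a0, ha0, ha⟩ := phib η hη0
  obtain ⟨b0, hb0, hb⟩ := phib (1 / 2 + η) (by positivity)
  obtain ⟨K1, hK1, hK1'⟩ := expb η hη0
  obtain ⟨K2, hK2, hK2'⟩ := expb (3 / 2) (by norm_num)
  have hnm0 : ∀ I : Ideal R, 0 ≤ nm I := fun I => Nat.cast_nonneg _
  have hZ1 : 0 ≤ ∑' G : Ideal R, nm G ^ (-(1 + η)) :=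
    tsum_nonneg fun G => Real.rpow_nonneg (hnm0 G) _
  have hZ2 : 0 ≤ ∑' kl : ℕ × ℕ, ((2 : ℝ) ^ kl.1) ^ (-(η / 2)) * ((2 : ℝ) ^ kl.2) ^ (-(η / 2)) :=
    tsum_nonneg fun _ => by positivity
  have hCV := hV.pos
  refine ⟨K1 * 2 ^ η * (∑' G : Ideal R, nm G ^ (-(1 + η))) *
    (CV ^ 2 * Real.sqrt (C2 ^ 2 * C3 * (1 + 1 / η)) *
      ∑' kl : ℕ × ℕ, ((2 : ℝ) ^ kl.1) ^ (-(η / 2)) * ((2 : ℝ) ^ kl.2) ^ (-(η / 2))) *
    (a0 ^ 2 + b0 ^ 2 * c0) * c0 ^ (3 * η) + 1, by positivity, ?_⟩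
  intro c χ hRC d hOd
  have hN1 : 1 ≤ nm c := hone c hRC.ne
  have hN0 : 0 < nm c := by linarith
  have hX : 0 < c0 * Real.sqrt (nm c) := mul_pos hc0 (Real.sqrt_pos.2 hN0)
  obtain ⟨-, hnorm, -, -⟩ := h4 R ω hR c χ hRC
  set X := c0 * Real.sqrt (nm c) with hXd
  set w : Ideal R → ℂ := fun I => g I / (nm I : ℂ) * (V (nm I / X) : ℂ) with hw
  have hws : Summable fun I => ‖w I‖ := by
    refine Summable.of_nonneg_of_le (fun _ => norm_nonneg _) (fun I => ?_)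
      ((hsum 2 (by norm_num)).mul_left (CV * (K2 * (2 * X) ^ (3 / 2 : ℝ))))
    by_cases hI : I = ⊥
    · subst hI
      have : w ⊥ = 0 := by simp only [hw, hg.zero, zero_div, zero_mul]
      rw [this, norm_zero]
      exact mul_nonneg (by positivity) (Real.rpow_nonneg (hnm0 _) _)
    · have ht := hone I hI
      have ht0 : 0 < nm I := by linarith
      have e1 := w_bound hV hX hg ht
      have e2 := hK2' (nm I / (2 * X)) (by positivity)
      have e3 : (nm I / (2 * X)) ^ (-(3 / 2) : ℝ) = nm I ^ (-(3 / 2) : ℝ) * (2 * X) ^ (3 / 2 : ℝ) := by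
        rw [Real.div_rpow ht0.le (by positivity), Real.rpow_neg (by positivity : (0 : ℝ) ≤ 2 * X)]
        field_simp
      have e4 : nm I ^ (-(1 / 2) : ℝ) * nm I ^ (-(3 / 2) : ℝ) = nm I ^ (-(2 : ℝ)) := by
        rw [← Real.rpow_add ht0]; congr 1; norm_num
      rw [e3] at e2
      calc ‖w I‖ ≤ CV * ((nm I) ^ (-(1 / 2) : ℝ) * Real.exp (-(nm I / (2 * X)))) := e1
        _ ≤ CV * ((nm I) ^ (-(1 / 2) : ℝ) *
            (K2 * (nm I ^ (-(3 / 2) : ℝ) * (2 * X) ^ (3 / 2 : ℝ)))) :=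
            mul_le_mul_of_nonneg_left (mul_le_mul_of_nonneg_left e2 (by positivity)) hCV.le
        _ = CV * (K2 * (2 * X) ^ (3 / 2 : ℝ)) *
            (nm I ^ (-(1 / 2) : ℝ) * nm I ^ (-(3 / 2) : ℝ)) := by ring
        _ = _ := by rw [e4]
  set K : Ideal R × Ideal R → ℝ := fun p =>
    if χ p.1 ≠ 0 ∧ χ p.1 = χ p.2 then ‖w p.1‖ * ‖w p.2‖ else 0 with hK
  have hK0 : ∀ p, 0 ≤ K p := fun p => by
    simp only [hK]
    split_ifs
    · positivity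
    · exact le_rfl
  have hKle : ∀ p : Ideal R × Ideal R, K p ≤ ‖w p.1‖ * ‖w p.2‖ := fun p => by
    simp only [hK]
    split_ifs
    · exact le_rfl
    · positivity
  have hKs : Summable K := Summable.of_nonneg_of_le hK0 hKle
    (hws.mul_of_nonneg hws (fun _ => norm_nonneg _) (fun _ => norm_nonneg _))
  have hort := orth χ w hws (fun a I => pw χ a I * w I) K hKs d hnorm hOd.pow
    (fun a i h => by
      have : pw χ a i = 0 := by unfold pw; rw [if_pos h]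
      show pw χ a i * w i = 0
      rw [this, zero_mul])
    (fun a i h => by
      have : pw χ a i = χ i ^ a := by unfold pw; rw [if_neg h]
      show pw χ a i * w i = χ i ^ a * w i
      rw [this]) hK0
    (fun p e1 e2 => le_of_eq (if_pos ⟨e1, e2⟩).symm)
  have hsmo : ∀ a, smo V g X (pw χ a) = ∑' I, pw χ a I * w I := fun a => by
    unfold smo
    refine tsum_congr fun I => ?_
    simp only [hw]
    ring
  have hps := pair_sum (a := a0 * X ^ η) (b := b0 * X ^ (1 / 2 + η)) (K1 := K1) (C2 := C2)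
    (C3 := C3) (η := η) (X := X) hR.ded hbot hone hmul (hsum (1 + η) (by linarith)) hfin hcnt
    hC2 hC3 hη0 hV hX hg hRC hOd.pos hN0 (fun x y hx hy => hpair c χ hRC d hOd x y hx hy)
    (by positivity) (by positivity) hK1 (fun t x ht hx hx0 => ha X t x hX ht hx hx0)
    (fun t x ht hx hx0 => by
      have e := hb X t x hX ht hx hx0
      have e' : -(1 / 2 + (1 / 2 + η)) = -(1 + η) := by ring
      rwa [e'] at e) hK1' K hKs hK0
    (fun p hp => by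
      by_cases h : χ p.1 ≠ 0 ∧ χ p.1 = χ p.2
      · exact ⟨h.1, h.2, if_pos h⟩
      · exact absurd (if_neg h) hp)
  rw [hXd, fin_alg hc0 hN1 hη] at hps
  have hfinal : ∑' p, K p ≤ (K1 * 2 ^ η * (∑' G : Ideal R, nm G ^ (-(1 + η))) *
    (CV ^ 2 * Real.sqrt (C2 ^ 2 * C3 * (1 + 1 / η)) *
      ∑' kl : ℕ × ℕ, ((2 : ℝ) ^ kl.1) ^ (-(η / 2)) * ((2 : ℝ) ^ kl.2) ^ (-(η / 2))) *
    (a0 ^ 2 + b0 ^ 2 * c0) * c0 ^ (3 * η) + 1) * nm c ^ ε * Real.sqrt (nm c / d) := by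
    refine hps.trans ?_
    have : 0 ≤ nm c ^ ε * Real.sqrt (nm c / d) := by positivity
    nlinarith
  simp only [hsmo]
  calc _ ≤ (d : ℝ) * ∑' p, K p := hort
    _ ≤ (d : ℝ) * _ := mul_le_mul_of_nonneg_left hfinal (Nat.cast_nonneg _)
    _ = _ := by ring

end Pool.Agent.W196.HK
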